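import Pool.Agent.Helper87.MobAlg

/-!
# Algebraic isometric embedding of the complete flat Moebius band in four-space

Idea: take the rectifying developable `Y(x,u) = c(x) + u D(x)` of the closed curve
`c(x) = (sin x, sin x (1 - cos x), (1 - cos x)^3 / 6)`. Its curvature vanishes only at `x = 0`, the
strip `|u| < u₀` is a flat Moebius strip of finite width, and everything is algebraic in
`sin (x/2), cos (x/2)`. Replace `u` by the bounded odd function `e r / (1 + r^2)` and add the
fourth coordinate `r^2`; in arc length along `(e r / (1 + r^2), r^2)` the metric becomes the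
complete flat one.
-/

namespace Pool.Agent.Results.MP_1b7163_gt.AlgMobius

open Real
open Pool.Agent.Helper87.Mob (FlatMoebius IsIsometricEmbedding IsAlgebraicSurface)

noncomputable section

/-- The closed curve `(sin x, sin x (1 - cos x), (1 - cos x)^3 / 6)` in `ℝ³`. -/
def curve (x : ℝ) : Fin 3 → ℝ :=
  ![sin x, sin x * (1 - cos x), (1 - cos x) ^ 3 / 6]

/-- Its velocity. -/
def vel (x : ℝ) : Fin 3 → ℝ :=
  ![cos x, sin x ^ 2 + cos x - cos x ^ 2, (1 - cos x) ^ 2 * sin x / 2]

/-- A binormal field: `curve' × curve'' = 2 sin (x/2) • bin`. -/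
def bin (x : ℝ) : Fin 3 → ℝ :=
  ![2 * sin (x / 2) ^ 5 * (3 + 4 * cos x + 2 * cos x ^ 2),
    - sin (x / 2) ^ 3 * (1 + 2 * cos x + 2 * cos x ^ 2),
    cos (x / 2) * (1 + 2 * cos x ^ 2)]

/-- The norm of `bin`. -/
def nbin (x : ℝ) : ℝ := Real.sqrt (∑ i, bin x i ^ 2)

/-- Auxiliary coefficient. -/
def coef (x : ℝ) : ℝ :=
  sin (x / 2) * (5 + 16 * cos x + 12 * cos x ^ 2 + 8 * cos x ^ 3 + 4 * cos x ^ 4) / 4

/-- The ruling vector of the rectifying developable of the curve. -/
def ruling (x : ℝ) : Fin 3 → ℝ := fun i =>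
  (nbin x ^ 2 * bin x i + coef x * (∑ j, vel x j ^ 2) * vel x i) / nbin x ^ 3

/-- The explicit surface in `ℝ⁴` (before dilation), depending on a small parameter `e`. -/
def surface (e x r : ℝ) : EuclideanSpace ℝ (Fin 4) :=
  !₂[curve x 0 + e * r / (1 + r ^ 2) * ruling x 0,
     curve x 1 + e * r / (1 + r ^ 2) * ruling x 1,
     curve x 2 + e * r / (1 + r ^ 2) * ruling x 2,
     r ^ 2]

/-- The length of the curve. -/
def length : ℝ := ∫ x in (0 : ℝ)..(2 * π), Real.sqrt (∑ i, vel x i ^ 2)

open Pool.Agent.Helper87.Mob in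
lemma curve_eq (x : ℝ) (i : Fin 3) : curve x i = ga i x := by
  match i with
  | 0 => simp only [curve, ga, sin_eq]; simp
  | 1 => simp only [curve, ga, sin_eq, cos_eq]; simp; ring
  | 2 => simp only [curve, ga, sin_eq, cos_eq]; simp; ring

open Pool.Agent.Helper87.Mob in
lemma vel_eq (x : ℝ) (i : Fin 3) : vel x i = T i x := by
  have h := c2 x
  match i with
  | 0 => simp only [vel, T, sin_eq, cos_eq]; simp
  | 1 => simp only [vel, T, sin_eq, cos_eq]; simp; linear_combination (4 * sh x ^ 2) * h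
  | 2 => simp only [vel, T, sin_eq, cos_eq]; simp; ring

open Pool.Agent.Helper87.Mob in
lemma bin_eq (x : ℝ) (i : Fin 3) : bin x i = B i x := by
  have h1 : sin (x / 2) = sh x := rfl
  have h2 : cos (x / 2) = ch x := rfl
  match i with
  | 0 => simp only [bin, B, cos_eq, h1]; simp; left; ring
  | 1 => simp only [bin, B, cos_eq, h1]; simp; left; ring
  | 2 =>
    change cos (x / 2) * (1 + 2 * cos x ^ 2) = ch x * (3 - 8 * sh x ^ 2 + 8 * sh x ^ 4)
    rw [h2, cos_eq]; ring

open Pool.Agent.Helper87.Mob in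
lemma sum_vel (x : ℝ) : ∑ i, vel x i ^ 2 = tt x := by
  rw [Fin.sum_univ_three, vel_eq, vel_eq, vel_eq, tt_eq]

open Pool.Agent.Helper87.Mob in
lemma nbin_eq (x : ℝ) : nbin x = nb x := by
  rw [nbin, nb, Fin.sum_univ_three, bin_eq, bin_eq, bin_eq, bb_eq]

open Pool.Agent.Helper87.Mob in
lemma coef_eq (x : ℝ) : coef x = Pool.Agent.Helper87.Mob.sq x := by
  have h1 : sin (x / 2) = sh x := rfl
  simp only [coef, Pool.Agent.Helper87.Mob.sq, cos_eq, h1]
  ring

open Pool.Agent.Helper87.Mob in
lemma sum_T (x : ℝ) : ∑ i, T i x ^ 2 = tt x := by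
  rw [Fin.sum_univ_three, tt_eq]

open Pool.Agent.Helper87.Mob in
lemma surface_eq (e x r : ℝ) : surface e x r = surf e x r := by
  simp only [surface, surf, ruling, curve_eq, vel_eq, sum_T, bin_eq, nbin_eq, coef_eq, rho, D]

open Pool.Agent.Helper87.Mob in
lemma length_eq : length = len := by
  simp only [length, len, sum_vel]

/-- For all sufficiently small `e > 0` and every `w > 0`, the explicit surface
`(w / length) • surface e` is the image of an isometric embedding of the complete flat Moebius band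
`M_w` in `ℝ⁴`, and it is an algebraic surface. -/
theorem result : ∃ e₀ > 0, ∀ e : ℝ, 0 < e → e < e₀ → ∀ w : ℝ, 0 < w →
    ∃ X : FlatMoebius w → EuclideanSpace ℝ (Fin 4),
      IsIsometricEmbedding w X ∧
      Set.range X = Set.range (fun p : ℝ × ℝ => (w / length) • surface e p.1 p.2) ∧
      IsAlgebraicSurface (Set.range X) := by
  obtain ⟨e₀, he₀, h⟩ := Pool.Agent.Helper87.Mob.main_geometric
  refine ⟨e₀, he₀, fun e he hlt w hw => ?_⟩
  obtain ⟨X, h1, h2⟩ := h e he hlt w hw
  refine ⟨X, h1, ?_, ?_⟩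
  · rw [h2]
    simp only [surface_eq, length_eq]
  · rw [h2]
    exact Pool.Agent.Helper87.Mob.surface_algebraic
      (div_pos hw Pool.Agent.Helper87.Mob.len_pos) he

end

end Pool.Agent.Results.MP_1b7163_gt.AlgMobius
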